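import Mathlib

set_option autoImplicit false

/-!
# The mixed loneliness parameter space is not determined by finitely many speed sets

For every `k ≥ 3` no finite family of speed sets determines `MLPS_k`.
-/

namespace Pool.Agent.Results.MP_b1d502_nt.NotFinitelyDetermined

/-- The distance from `x` to the nearest integer. -/
noncomputable def nint (x : ℝ) : ℝ := |x - round x|

/-- The box `(0, 1/2]^k`. -/
def Box (k : ℕ) : Set (Fin k → ℝ) := {d | ∀ i, 0 < d i ∧ d i ≤ 1 / 2}

/-- A speed set of length `k`: an ordered `k`-tuple of pairwise distinct positive integers. -/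
def IsSpeedSet {k : ℕ} (s : Fin k → ℕ) : Prop := (∀ i, 0 < s i) ∧ Function.Injective s

/-- `A(s)`: the points `d` of the box for which some time `t` has `‖s_i t‖ ≥ d_i` for all `i`. -/
def A {k : ℕ} (s : Fin k → ℕ) : Set (Fin k → ℝ) :=
  {d | d ∈ Box k ∧ ∃ t : ℝ, ∀ i, d i ≤ nint (s i * t)}

/-- The mixed loneliness parameter space `MLPS_k`: the intersection of the sets `A(s)` over all
speed sets `s` of length `k` (inside the box `(0, 1/2]^k`). -/
def MLPS (k : ℕ) : Set (Fin k → ℝ) := {d | d ∈ Box k ∧ ∀ s : Fin k → ℕ, IsSpeedSet s → d ∈ A s}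

/-- The intersection of the sets `A(s)` over the members `s` of the family `F` (inside the box). -/
def Inter {k : ℕ} (F : Set (Fin k → ℕ)) : Set (Fin k → ℝ) := {d | d ∈ Box k ∧ ∀ s ∈ F, d ∈ A s}

lemma nint_le (x : ℝ) (n : ℤ) : nint x ≤ |x - n| := round_le x n

lemma nint_nonneg (x : ℝ) : 0 ≤ nint x := abs_nonneg _

lemma nint_half (x : ℝ) : nint x ≤ 1 / 2 := abs_sub_round x

lemma nint_pos (x : ℝ) (h : ∀ n : ℤ, x ≠ n) : 0 < nint x := by
  unfold nint
  rw [abs_pos, sub_ne_zero]
  exact h _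

/-- a lower bound for the distance to the nearest integer from a nearby interval -/
lemma le_nint (x c : ℝ) (n : ℤ) (h1 : (n : ℝ) + c ≤ x) (h2 : x ≤ n + 1 - c) : c ≤ nint x := by
  unfold nint
  rcases le_or_gt (round x) n with h | h
  · have : ((round x : ℤ) : ℝ) ≤ n := by exact_mod_cast h
    exact le_trans (by linarith) (le_abs_self _)
  · have : (n : ℝ) + 1 ≤ ((round x : ℤ) : ℝ) := by exact_mod_cast h
    exact le_trans (by linarith) (neg_le_abs _)

/-- a rational number with denominator `q` which is not an integer has distance at least `1 / q`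
from the integers -/
lemma nint_rat (b q : ℕ) (hq : 0 < q) (h : ¬ q ∣ b) : 1 / (q : ℝ) ≤ nint ((b : ℝ) / q) := by
  have hq' : (0 : ℝ) < q := by exact_mod_cast hq
  unfold nint
  have h1 : (b : ℝ) / q - round ((b : ℝ) / q) = ((b : ℤ) - q * round ((b : ℝ) / q) : ℤ) / (q : ℝ) := by
    push_cast
    field_simp
  rw [h1, abs_div, abs_of_pos hq']
  apply div_le_div_of_nonneg_right _ hq'.le
  have h2 : ((b : ℤ) - q * round ((b : ℝ) / q) : ℤ) ≠ 0 := by
    intro h0
    apply h
    have h3 : (b : ℤ) = q * round ((b : ℝ) / q) := by linarith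
    exact_mod_cast Dvd.intro _ h3.symm
  have h4 : (1 : ℤ) ≤ |((b : ℤ) - q * round ((b : ℝ) / q) : ℤ)| := Int.one_le_abs h2
  exact_mod_cast h4

/-- For a given prime `p`, larger than twice all speeds, each speed set has a good time. -/
lemma good_time {k : ℕ} (s : Fin (k + 3) → ℕ) (hs : IsSpeedSet s) (p : ℕ) (hp : p.Prime)
    (hp2 : ∀ i, 2 * s i + 4 < p) :
    ∃ t : ℝ, 1 / 2 - 1 / (2 * (p : ℝ)) ≤ nint (s 0 * t) ∧ 1 / (p : ℝ) ≤ nint (s 1 * t) ∧
      ∀ i : Fin (k + 3), i ≠ 0 → i ≠ 1 → 0 < nint (s i * t) := by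
  have hp0 : (0 : ℝ) < p := by exact_mod_cast hp.pos
  have ha0 : (0 : ℝ) < s 0 := by exact_mod_cast hs.1 0
  have hb0 : (0 : ℝ) < s 1 := by exact_mod_cast hs.1 1
  have hbp : 2 * (s 1 : ℝ) + 4 < p := by exact_mod_cast hp2 1
  have hap : 2 * (s 0 : ℝ) + 4 < p := by exact_mod_cast hp2 0
  have hpinv : 1 / (p : ℝ) < 1 / 4 := by
    apply one_div_lt_one_div_of_lt <;> linarith
  have hp2inv : 1 / (2 * (p : ℝ)) = 1 / (p : ℝ) / 2 := by field_simp
  have hinv0 : 0 < 1 / (p : ℝ) := by positivity
  -- it suffices to find a nondegenerate interval of times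
  have key : ∀ t₁ t₂ : ℝ, t₁ < t₂ → (∀ t, t₁ < t → t < t₂ →
      1 / 2 - 1 / (2 * (p : ℝ)) ≤ nint (s 0 * t) ∧ 1 / (p : ℝ) ≤ nint (s 1 * t)) →
      ∃ t : ℝ, 1 / 2 - 1 / (2 * (p : ℝ)) ≤ nint (s 0 * t) ∧ 1 / (p : ℝ) ≤ nint (s 1 * t) ∧
        ∀ i : Fin (k + 3), i ≠ 0 → i ≠ 1 → 0 < nint (s i * t) := by
    intro t₁ t₂ h12 h
    obtain ⟨t, ht, h1, h2⟩ := exists_irrational_btwn h12
    refine ⟨t, (h t h1 h2).1, (h t h1 h2).2, fun i _ _ => nint_pos _ fun n hn => ?_⟩
    have hsi : s i ≠ 0 := (hs.1 i).ne'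
    exact (ht.natCast_mul hsi) ⟨n, by push_cast; exact hn.symm⟩
  by_cases hdvd : 2 * s 0 ∣ s 1
  · obtain ⟨c, hc⟩ := hdvd
    have hc0 : c ≠ 0 := by
      rintro rfl
      have := hs.1 1
      omega
    by_cases hc1 : c = 1
    · -- the second speed is twice the first
      subst hc1
      have hodd : Odd p := hp.odd_of_ne_two (by have := hp2 0; omega)
      refine ⟨(1 / 2 - 1 / (2 * (p : ℝ))) / s 0, ?_, ?_, ?_⟩
      · rw [mul_div_cancel₀ _ ha0.ne']
        refine le_nint _ _ 0 ?_ ?_
        · push_cast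
          linarith
        · push_cast
          rw [hp2inv]
          linarith
      · have e : (s 1 : ℝ) * ((1 / 2 - 1 / (2 * (p : ℝ))) / s 0) = 1 - 1 / p := by
          rw [hc]
          push_cast
          field_simp
        rw [e]
        refine le_nint _ _ 0 ?_ ?_ <;> push_cast <;> linarith
      · intro i hi0 hi1
        refine nint_pos _ fun n hn => ?_
        have e : (s i : ℝ) * ((p : ℝ) - 1) = n * (2 * s 0) * p := by
          rw [← hn]
          field_simp
        have e' : ((s i : ℤ) * ((p : ℤ) - 1)) = n * (2 * s 0) * p := by exact_mod_cast e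
        have hd : (p : ℤ) ∣ (s i : ℤ) * ((p : ℤ) - 1) := ⟨n * (2 * s 0), by rw [e']; ring⟩
        have hpr : Prime (p : ℤ) := Nat.prime_iff_prime_int.1 hp
        rcases hpr.dvd_or_dvd hd with h | h
        · have h' : p ∣ s i := by exact_mod_cast h
          have := Nat.le_of_dvd (hs.1 i) h'
          have := hp2 i
          omega
        · have h' : (p : ℤ) ∣ 1 := by
            have := dvd_sub (dvd_refl (p : ℤ)) h
            simpa using this
          have h'' : p ∣ 1 := by exact_mod_cast h'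
          exact hp.one_lt.ne' (Nat.dvd_one.1 h'')
    · -- the second speed is a larger multiple of twice the first
      have hc2 : 2 ≤ c := by omega
      have hc2' : (2 : ℝ) ≤ c := by exact_mod_cast hc2
      have hcs : c ≤ s 1 := by
        rw [hc]
        have := hs.1 0
        nlinarith
      have hcs' : (c : ℝ) ≤ s 1 := by exact_mod_cast hcs
      have hcp : (c : ℝ) / p ≤ 1 / 2 := by
        rw [div_le_iff₀ hp0]
        linarith
      refine key ((1 / 2 - 1 / (2 * (p : ℝ))) / s 0) ((1 / 2 - 1 / (2 * (p : ℝ)) / c) / s 0) ?_ ?_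
      · apply div_lt_div_of_pos_right _ ha0
        have : 1 / (2 * (p : ℝ)) / c < 1 / (2 * (p : ℝ)) := by
          apply div_lt_self (by positivity)
          linarith
        linarith
      · intro t h1 h2
        rw [div_lt_iff₀ ha0] at h1
        rw [lt_div_iff₀ ha0] at h2
        have h3 : 0 < 1 / (2 * (p : ℝ)) / c := by positivity
        constructor
        · refine le_nint _ _ 0 ?_ ?_
          · push_cast
            linarith
          · push_cast
            have : 1 / (2 * (p : ℝ)) < 1 / 2 := by rw [hp2inv]; linarith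
            linarith
        · have hcc : ((c : ℤ) : ℝ) = c := by push_cast; rfl
          have e : (s 1 : ℝ) * t = 2 * c * (t * s 0) := by
            rw [hc]
            push_cast
            ring
          rw [e]
          have h4 : (c : ℝ) * (1 / (2 * (p : ℝ)) / c) = 1 / (2 * (p : ℝ)) := by field_simp
          have h5 : (c : ℝ) * (1 / (2 * (p : ℝ))) = (c : ℝ) / p / 2 := by field_simp
          refine le_nint _ _ ((c : ℤ) - 1) ?_ ?_
          · push_cast
            have h6 : (c : ℝ) * (1 / 2 - 1 / (2 * (p : ℝ))) < c * (t * s 0) := by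
              apply mul_lt_mul_of_pos_left h1
              linarith
            have h7 : (c : ℝ) * (1 / 2 - 1 / (2 * (p : ℝ))) = c / 2 - (c : ℝ) / p / 2 := by
              rw [mul_sub, h5]
              ring
            linarith
          · push_cast
            have h6 : (c : ℝ) * (t * s 0) < c * (1 / 2 - 1 / (2 * (p : ℝ)) / c) := by
              apply mul_lt_mul_of_pos_left h2
              linarith
            have h7 : (c : ℝ) * (1 / 2 - 1 / (2 * (p : ℝ)) / c) = c / 2 - 1 / (2 * (p : ℝ)) := by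
              rw [mul_sub, h4]
              ring
            rw [h7, hp2inv] at h6
            linarith
  · -- at the time `1 / (2 s_0)` the second runner is not at the start
    have h1 := nint_rat (s 1) (2 * s 0) (by have := hs.1 0; omega) hdvd
    have h2 : 1 / (p : ℝ) < 1 / ((2 * s 0 : ℕ) : ℝ) := by
      apply one_div_lt_one_div_of_lt
      · push_cast
        linarith
      · push_cast
        linarith
    obtain ⟨δ, hδ0, hδ⟩ : ∃ δ : ℝ, 0 < δ ∧ 1 / (p : ℝ) + s 1 * δ ≤ nint ((s 1 : ℝ) / (2 * s 0 : ℕ)) := by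
      refine ⟨(1 / ((2 * s 0 : ℕ) : ℝ) - 1 / p) / s 1, ?_, ?_⟩
      · apply div_pos _ hb0
        linarith
      · rw [mul_div_cancel₀ _ hb0.ne']
        linarith
    refine key (1 / (2 * s 0)) (1 / (2 * s 0) + min δ (1 / (2 * p) / s 0)) ?_ ?_
    · have : 0 < min δ (1 / (2 * p) / s 0) := lt_min hδ0 (by positivity)
      linarith
    · intro t ht1 ht2
      have h3 : t < 1 / (2 * s 0) + δ := lt_of_lt_of_le ht2 (by linarith [min_le_left δ (1 / (2 * p) / (s 0 : ℝ))])
      have h4 : t < 1 / (2 * s 0) + (1 / (2 * p) / s 0) :=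
        lt_of_lt_of_le ht2 (by linarith [min_le_right δ (1 / (2 * p) / (s 0 : ℝ))])
      constructor
      · have h5 : (s 0 : ℝ) * (1 / (2 * s 0)) = 1 / 2 := by field_simp
        have h6 : (s 0 : ℝ) * (1 / (2 * p) / s 0) = 1 / (2 * p) := by field_simp
        have h7 : (s 0 : ℝ) * t < s 0 * (1 / (2 * s 0) + (1 / (2 * p) / s 0)) :=
          mul_lt_mul_of_pos_left h4 ha0
        have h8 : (s 0 : ℝ) * (1 / (2 * s 0)) < s 0 * t := mul_lt_mul_of_pos_left ht1 ha0
        rw [mul_add, h5, h6] at h7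
        rw [h5] at h8
        have h9 : 0 < 1 / (2 * (p : ℝ)) := by positivity
        refine le_nint _ _ 0 ?_ ?_
        · push_cast
          linarith
        · push_cast
          linarith
      · have h5 : nint ((s 1 : ℝ) / (2 * s 0 : ℕ)) ≤ nint (s 1 * t) + s 1 * δ := by
          refine (nint_le _ (round (s 1 * t))).trans ?_
          have e : (s 1 : ℝ) / (2 * s 0 : ℕ) - round (s 1 * t) =
              (s 1 * t - round (s 1 * t)) + (s 1 * (1 / (2 * s 0)) - s 1 * t) := by
            push_cast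
            ring
          rw [e]
          refine (abs_add_le _ _).trans ?_
          have h6 : |(s 1 : ℝ) * (1 / (2 * s 0)) - s 1 * t| ≤ s 1 * δ := by
            rw [← mul_sub, abs_mul, abs_of_pos hb0]
            apply mul_le_mul_of_nonneg_left _ hb0.le
            rw [abs_le]
            constructor <;> linarith
          unfold nint
          linarith
        linarith

/-- **Theorem.** For `k ≥ 3` no finite family of speed sets determines `MLPS_k`: for every finite
family `F` of speed sets of length `k` the intersection of the sets `A(s)`, `s ∈ F`, strictly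
contains `MLPS_k`. -/
theorem result :
    ∀ k : ℕ, 3 ≤ k → ∀ F : Set (Fin k → ℕ), F.Finite → (∀ s ∈ F, IsSpeedSet s) →
      MLPS k ⊂ Inter F := by
  intro k hk F hF hFs
  obtain ⟨k, rfl⟩ : ∃ l, k = l + 3 := ⟨k - 3, by omega⟩
  rw [Set.ssubset_iff_subset_ne]
  refine ⟨fun d hd => ⟨hd.1, fun s hs => hd.2 s (hFs s hs)⟩, fun heq => ?_⟩
  -- a prime above twice all speeds
  obtain ⟨N, hN⟩ : ∃ N : ℕ, ∀ s ∈ F, ∀ i, s i ≤ N := by
    obtain ⟨N, hN⟩ := (hF.image (fun s : Fin (k + 3) → ℕ => Finset.univ.sup s)).bddAbove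
    refine ⟨N, fun s hs i => ?_⟩
    exact (Finset.le_sup (f := s) (Finset.mem_univ i)).trans (hN ⟨s, hs, rfl⟩)
  obtain ⟨p, hpN, hp⟩ := Nat.exists_infinite_primes (2 * N + 5)
  have hp0 : (0 : ℝ) < p := by exact_mod_cast hp.pos
  have hp5 : (5 : ℝ) ≤ p := by
    have : 5 ≤ p := by omega
    exact_mod_cast this
  have hpinv : 1 / (p : ℝ) ≤ 1 / 5 := one_div_le_one_div_of_le (by norm_num) hp5
  have hp2inv : 1 / (2 * (p : ℝ)) = 1 / (p : ℝ) / 2 := by field_simp
  have hinv0 : 0 < 1 / (p : ℝ) := by positivity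
  -- good times
  have hgood : ∀ s ∈ F, ∃ t : ℝ, 1 / 2 - 1 / (2 * (p : ℝ)) ≤ nint (s 0 * t) ∧
      1 / (p : ℝ) ≤ nint (s 1 * t) ∧
      ∀ i : Fin (k + 3), i ≠ 0 → i ≠ 1 → 0 < nint (s i * t) := fun s hs =>
    good_time s (hFs s hs) p hp (fun i => by have := hN s hs i; omega)
  choose! T hT using hgood
  -- a small positive number
  obtain ⟨c, hc0, hc2, hc⟩ : ∃ c : ℝ, 0 < c ∧ c ≤ 1 / 2 ∧ ∀ s ∈ F, ∀ i : Fin (k + 3), i ≠ 0 → i ≠ 1 →
      c ≤ nint (s i * T s) := by
    have hfin : (insert (1 / 2 : ℝ) (⋃ s ∈ F, Set.range fun i : {i : Fin (k + 3) // i ≠ 0 ∧ i ≠ 1} =>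
        nint (s i.1 * T s))).Finite := by
      apply Set.Finite.insert
      exact hF.biUnion fun s _ => Set.finite_range _
    obtain ⟨c, hcm, hcmin⟩ := Set.exists_min_image _ id hfin (Set.insert_nonempty _ _)
    refine ⟨c, ?_, hcmin _ (Set.mem_insert _ _), ?_⟩
    · rcases hcm with rfl | hcm
      · norm_num
      · simp only [Set.mem_iUnion] at hcm
        obtain ⟨s, hs, i, rfl⟩ := hcm
        exact (hT s hs).2.2 i.1 i.2.1 i.2.2
    · intro s hs i h0 h1
      apply hcmin
      apply Set.mem_insert_of_mem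
      simp only [Set.mem_iUnion]
      exact ⟨s, hs, ⟨i, h0, h1⟩, rfl⟩
  -- the separating point
  set d : Fin (k + 3) → ℝ := fun i =>
    if i = 0 then 1 / 2 - 1 / (2 * (p : ℝ)) else if i = 1 then 1 / (p : ℝ) else c with hd
  have hd0 : d 0 = 1 / 2 - 1 / (2 * (p : ℝ)) := by simp [hd]
  have hd1 : d 1 = 1 / (p : ℝ) := by simp [hd]
  have hdi : ∀ i : Fin (k + 3), i ≠ 0 → i ≠ 1 → d i = c := by
    intro i h0 h1
    simp [hd, h0, h1]
  have hbox : d ∈ Box (k + 3) := by
    intro i
    by_cases h0 : i = 0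
    · subst h0
      rw [hd0, hp2inv]
      constructor <;> linarith
    by_cases h1 : i = 1
    · subst h1
      rw [hd1]
      constructor <;> linarith
    rw [hdi i h0 h1]
    exact ⟨hc0, hc2⟩
  have hmem : d ∈ Inter F := by
    refine ⟨hbox, fun s hs => ⟨hbox, T s, fun i => ?_⟩⟩
    by_cases h0 : i = 0
    · subst h0
      rw [hd0]
      exact (hT s hs).1
    by_cases h1 : i = 1
    · subst h1
      rw [hd1]
      exact (hT s hs).2.1
    rw [hdi i h0 h1]
    exact hc s hs i h0 h1
  rw [← heq] at hmem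
  -- the speed set `(1, 2, p, p + 3, p + 4, ...)` excludes it
  set s : Fin (k + 3) → ℕ := fun i => if (i : ℕ) = 0 then 1 else if (i : ℕ) = 1 then 2 else
    if (i : ℕ) = 2 then p else p + i with hs
  have hs0 : s 0 = 1 := by simp [hs]
  have hs1 : s 1 = 2 := by simp [hs]
  have h2v : ((2 : Fin (k + 3)) : ℕ) = 2 := Fin.val_two
  have hs2 : s 2 = p := by
    show (if ((2 : Fin (k + 3)) : ℕ) = 0 then 1 else if ((2 : Fin (k + 3)) : ℕ) = 1 then 2 else
      if ((2 : Fin (k + 3)) : ℕ) = 2 then p else p + ((2 : Fin (k + 3)) : ℕ)) = p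
    rw [h2v, if_neg (by norm_num), if_neg (by norm_num), if_pos rfl]
  have hss : IsSpeedSet s := by
    have hp2 := hp.two_le
    constructor
    · intro i
      simp only [hs]
      split_ifs <;> omega
    · intro i j hij
      simp only [hs] at hij
      apply Fin.ext
      split_ifs at hij <;> omega
  obtain ⟨-, t, ht⟩ := hmem.2 s hss
  have h20 : (2 : Fin (k + 3)) ≠ 0 := by
    intro h
    have := congrArg Fin.val h
    rw [h2v] at this
    simp at this
  have h21 : (2 : Fin (k + 3)) ≠ 1 := by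
    intro h
    have := congrArg Fin.val h
    rw [h2v] at this
    simp at this
  have ht0 := ht 0
  have ht1 := ht 1
  have ht2 := ht 2
  rw [hs0, hd0, Nat.cast_one, one_mul] at ht0
  rw [hs1, hd1] at ht1
  rw [hs2, hdi 2 h20 h21] at ht2
  -- write `t = n + 1/2 + v`
  set n : ℤ := ⌊t⌋ with hn
  set v : ℝ := t - n - 1 / 2 with hv
  have hfl := Int.floor_le t
  have hlf := Int.lt_floor_add_one t
  have hv1 : |v| ≤ 1 / (2 * (p : ℝ)) := by
    have h1 := ht0.trans (nint_le t n)
    have h2 := ht0.trans (nint_le t (n + 1))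
    rw [abs_of_nonneg (by linarith)] at h1
    rw [abs_of_nonpos (by push_cast; linarith)] at h2
    push_cast at h2
    rw [abs_le]
    constructor <;> linarith
  have hv2 : 1 / (2 * (p : ℝ)) ≤ |v| := by
    have h1 := ht1.trans (nint_le _ (2 * n + 1))
    have e : ((2 : ℕ) : ℝ) * t - ((2 * n + 1 : ℤ) : ℝ) = 2 * v := by
      rw [hv]
      push_cast
      ring
    rw [e, abs_mul, abs_two] at h1
    rw [hp2inv]
    linarith
  have hv3 : |v| = 1 / (2 * (p : ℝ)) := le_antisymm hv1 hv2
  obtain ⟨m, hm⟩ := hp.odd_of_ne_two (by omega)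
  have hm' : (p : ℝ) = 2 * m + 1 := by exact_mod_cast hm
  have hint : ∃ z : ℤ, (p : ℝ) * t = z := by
    rcases abs_choice v with h | h
    · rw [h] at hv3
      refine ⟨p * n + m + 1, ?_⟩
      have : (p : ℝ) * v = 1 / 2 := by
        rw [hv3]
        field_simp
      have e : (p : ℝ) * t = p * n + p / 2 + p * v := by
        rw [hv]
        ring
      rw [e, this]
      push_cast
      rw [hm']
      ring
    · rw [h] at hv3
      refine ⟨p * n + m, ?_⟩
      have : (p : ℝ) * v = - (1 / 2) := by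
        have : v = - (1 / (2 * (p : ℝ))) := by linarith
        rw [this]
        field_simp
      have e : (p : ℝ) * t = p * n + p / 2 + p * v := by
        rw [hv]
        ring
      rw [e, this]
      push_cast
      rw [hm']
      ring
  obtain ⟨z, hz⟩ := hint
  have h1 := ht2.trans (nint_le _ z)
  rw [hz, sub_self, abs_zero] at h1
  linarith

end Pool.Agent.Results.MP_b1d502_nt.NotFinitelyDetermined
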